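import Pool.Agent.X155.QuatU

/-! MP_aafbbc_al, Q1: the unit group of the Lipschitz quaternions modulo `128` is an
indecomposable 2-group which is realizable in characteristic `2 ^ 7` but not in characteristic
`2`. -/

namespace Pool.Agent.Results.MP_aafbbc_al.QuaternionUnits
open Quaternion

/-- `G` is realizable in characteristic `n`: it is the unit group of a finite ring of
characteristic `n`. -/
def Realizable (G : Type) [Group G] (n : ℕ) : Prop :=
  ∃ (R : Type) (_ : Ring R), Finite R ∧ CharP R n ∧ Nonempty (Rˣ ≃* G)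

/-- `G` is not isomorphic to a direct product of two nontrivial groups. -/
def Indecomposable (G : Type) [Group G] : Prop :=
  ∀ (A B : Type) (_ : Group A) (_ : Group B), Nonempty (G ≃* A × B) →
    Subsingleton A ∨ Subsingleton B

theorem result :
    (∃ (G : Type) (_ : Group G) (m : ℕ), Finite G ∧ IsPGroup 2 G ∧ Indecomposable G ∧
      2 ≤ m ∧ Realizable G (2 ^ m) ∧ ¬ Realizable G 2) ∧
    (Finite (Quaternion (ZMod 128))ˣ ∧ IsPGroup 2 (Quaternion (ZMod 128))ˣ ∧
      Indecomposable (Quaternion (ZMod 128))ˣ ∧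
      Realizable (Quaternion (ZMod 128))ˣ (2 ^ 7) ∧ ¬ Realizable (Quaternion (ZMod 128))ˣ 2) := by
  have h : Finite (Quaternion (ZMod 128))ˣ ∧ IsPGroup 2 (Quaternion (ZMod 128))ˣ ∧
      Indecomposable (Quaternion (ZMod 128))ˣ ∧
      Realizable (Quaternion (ZMod 128))ˣ (2 ^ 7) ∧
      ¬ Realizable (Quaternion (ZMod 128))ˣ 2 := by
    refine ⟨inferInstance, X155.QuatU.isPGroup, ?_, ?_, ?_⟩
    · intro A B _ _ ⟨e⟩
      exact X155.QuatU.indecomposable A B e
    · refine ⟨Quaternion (ZMod 128), inferInstance, inferInstance, ?_, ⟨MulEquiv.refl _⟩⟩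
      have : CharP X155.QuatU.H 128 := inferInstance
      simpa using this
    · rintro ⟨R, _, hfin, hchar, ⟨e⟩⟩
      exact (X155.QuatU.not_char_two R).false e
  exact ⟨⟨(Quaternion (ZMod 128))ˣ, inferInstance, 7, h.1, h.2.1, h.2.2.1, by norm_num,
    h.2.2.2.1, h.2.2.2.2⟩, h⟩

end Pool.Agent.Results.MP_aafbbc_al.QuaternionUnits
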